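import Pool.Agent.H31.MP.Basic

/-!
# Row BK of the board mtp_modules: Bombieri and Vinogradov with divisor weights
-/

set_option autoImplicit false

namespace Pool.Agent.H32.MTP

open Pool.Agent.H31.MP Finset Filter
open Pool.Agent.H30.BV (NX wx WX SC)

/-- powers of the logarithm are small -/
theorem log_small (C : ℝ) (m : ℕ) : ∀ᶠ X : ℝ in atTop, C * Real.log X ^ m ≤ X ^ (1 / 2 : ℝ) := by
  have h1 : (fun X : ℝ => Real.log X ^ (m : ℝ)) =o[atTop] fun X => X ^ (1 / 2 : ℝ) :=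
    isLittleO_log_rpow_rpow_atTop _ (by norm_num)
  have h2 := h1.bound (show 0 < (|C| + 1)⁻¹ by positivity)
  filter_upwards [h2, eventually_ge_atTop 1] with X hX h3
  rw [Real.norm_eq_abs, Real.norm_eq_abs, abs_of_nonneg (Real.rpow_nonneg (by linarith : (0 : ℝ) ≤ X) (1 / 2)),
    Real.rpow_natCast] at hX
  have h4 : Real.log X ^ m ≤ |Real.log X ^ m| := le_abs_self _
  have hC0 : 0 < |C| + 1 := by positivity
  have h5 : (|C| + 1) * |Real.log X ^ m| ≤ X ^ (1 / 2 : ℝ) := by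
    have := mul_le_mul_of_nonneg_left hX hC0.le
    rwa [← mul_assoc, mul_inv_cancel₀ hC0.ne', one_mul] at this
  calc C * Real.log X ^ m ≤ |C * Real.log X ^ m| := le_abs_self _
    _ = |C| * |Real.log X ^ m| := abs_mul _ _
    _ ≤ (|C| + 1) * |Real.log X ^ m| := mul_le_mul_of_nonneg_right (by linarith) (abs_nonneg _)
    _ ≤ _ := h5

theorem pf_BK (hBVO : T_BVO) (hTR : T_TR) (hDVK : T_DVK) : T_BK := by
  intro ε A K hε
  obtain ⟨hTR1, C0, hC0, hTR2⟩ := hTR
  obtain ⟨C1, B1, hC1, hD1⟩ := hDVK (K ^ 2)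
  obtain ⟨C2, B2, hC2, hD2⟩ := hDVK 1
  obtain ⟨C3, B3, hC3, hD3⟩ := hDVK K
  set A' := 2 * A + B1 + 2 with hA'
  obtain ⟨X1, hX1⟩ := hBVO ε A' hε
  have hev : ∀ᶠ X : ℝ in atTop, ∀ D : ℕ, (D : ℝ) ≤ X ^ (1 / 2 - ε) →
      ∑ d ∈ Icc 1 D, (K : ℝ) ^ om d * (EQ X d + Real.log X ^ 2) ≤ X / Real.log X ^ A := by
    filter_upwards [eventually_ge_atTop X1, eventually_ge_atTop 3,
      log_small (8 * C2) (2 + B2 + A'), log_small (2 * C3) (2 + B3 + A),
      Real.tendsto_log_atTop.eventually_ge_atTop (8 * C0 * C1)] with X hXX hX3 hs1 hs2 hs3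
    intro D hD
    have hX0 : (0 : ℝ) < X := by linarith
    have hX1' : (1 : ℝ) ≤ X := by linarith
    have hlog1 : 1 ≤ Real.log X := by
      rw [Real.le_log_iff_exp_le hX0]
      have := Real.exp_one_lt_d9
      linarith
    have hlog : 0 < Real.log X := by linarith
    have hhalf : X ^ (1 / 2 : ℝ) * X ^ (1 / 2 : ℝ) = X := by
      rw [← Real.rpow_add hX0]
      norm_num
    have hh0 : 0 < X ^ (1 / 2 : ℝ) := Real.rpow_pos_of_pos hX0 _
    have hh1 : 1 ≤ X ^ (1 / 2 : ℝ) := Real.one_le_rpow hX1' (by norm_num)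
    have hDh : (D : ℝ) ≤ X ^ (1 / 2 : ℝ) := by
      refine hD.trans (Real.rpow_le_rpow_of_exponent_le hX1' (by linarith))
    have hDX : (D : ℝ) ≤ X := by nlinarith
    have hEQ0 : ∀ d ∈ Icc 1 D, 0 ≤ EQ X d := by
      intro d hd
      rw [mem_Icc] at hd
      have : (d : ℝ) ≤ D := by exact_mod_cast hd.2
      exact (hTR1 X d hX3 hd.1 (by linarith)).1
    -- the sums of DVK up to D
    have hdv : ∀ (L : ℕ) (C : ℝ) (B : ℕ), 0 < C → (∀ N : ℕ, 2 ≤ N →
        ∑ d ∈ Icc 1 N, (L : ℝ) ^ om d / (d.totient : ℝ) ≤ C * Real.log N ^ B) →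
        ∑ d ∈ Icc 1 D, (L : ℝ) ^ om d / (d.totient : ℝ) ≤ C * Real.log X ^ B := by
      intro L C B hC h
      have h1 : ∑ d ∈ Icc 1 D, (L : ℝ) ^ om d / (d.totient : ℝ) ≤
          ∑ d ∈ Icc 1 (max D 2), (L : ℝ) ^ om d / (d.totient : ℝ) := by
        apply sum_le_sum_of_subset_of_nonneg
        · exact Icc_subset_Icc_right (le_max_left _ _)
        · intro d _ _
          positivity
      refine h1.trans ((h _ (le_max_right _ _)).trans ?_)
      apply mul_le_mul_of_nonneg_left _ hC.le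
      apply pow_le_pow_left₀
      · apply Real.log_nonneg
        have : 1 ≤ max D 2 := le_trans (by norm_num) (le_max_right _ _)
        exact_mod_cast this
      · apply Real.log_le_log
        · have : 0 < max D 2 := lt_of_lt_of_le (by norm_num) (le_max_right _ _)
          exact_mod_cast this
        · push_cast
          exact max_le hDX (by linarith)
    -- first factor
    have hF1 : ∑ d ∈ Icc 1 D, ((K : ℝ) ^ om d) ^ 2 * EQ X d ≤ C0 * C1 * X * Real.log X ^ (B1 + 1) := by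
      have h1 : ∑ d ∈ Icc 1 D, ((K : ℝ) ^ om d) ^ 2 * EQ X d ≤
          ∑ d ∈ Icc 1 D, (C0 * X * Real.log X) * (((K ^ 2 : ℕ) : ℝ) ^ om d / (d.totient : ℝ)) := by
        apply sum_le_sum
        intro d hd
        rw [mem_Icc] at hd
        have hdX : (d : ℝ) ≤ X := le_trans (by exact_mod_cast hd.2) hDX
        have h2 := hTR2 X d hX3 hd.1 hdX
        have e1 : ((K ^ 2 : ℕ) : ℝ) ^ om d = ((K : ℝ) ^ om d) ^ 2 := by
          push_cast
          rw [← pow_mul, ← pow_mul, mul_comm]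
        rw [e1]
        calc ((K : ℝ) ^ om d) ^ 2 * EQ X d ≤ ((K : ℝ) ^ om d) ^ 2 * (C0 * X * Real.log X / d.totient) :=
              mul_le_mul_of_nonneg_left h2 (by positivity)
          _ = _ := by ring
      rw [← mul_sum] at h1
      refine h1.trans ?_
      calc C0 * X * Real.log X * ∑ d ∈ Icc 1 D, ((K ^ 2 : ℕ) : ℝ) ^ om d / (d.totient : ℝ) ≤
            C0 * X * Real.log X * (C1 * Real.log X ^ B1) :=
            mul_le_mul_of_nonneg_left (hdv _ C1 B1 hC1 hD1) (by positivity)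
        _ = _ := by rw [pow_succ]; ring
    -- second factor
    have hF2 : ∑ d ∈ Icc 1 D, EQ X d ≤ 2 * X / Real.log X ^ A' := by
      have h1 : ∑ d ∈ Icc 1 D, EQ X d ≤ ∑ d ∈ Icc 1 D, SC X d / (d.totient : ℝ) +
          8 * Real.log X ^ 2 * ∑ d ∈ Icc 1 D, ((1 : ℕ) : ℝ) ^ om d / (d.totient : ℝ) := by
        rw [mul_sum, ← sum_add_distrib]
        apply sum_le_sum
        intro d hd
        rw [mem_Icc] at hd
        have hdX : (d : ℝ) ≤ X := le_trans (by exact_mod_cast hd.2) hDX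
        have h2 := (hTR1 X d hX3 hd.1 hdX).2
        rw [Nat.cast_one, one_pow]
        refine h2.trans (le_of_eq ?_)
        ring
      have h2 := hX1 X hXX D hD
      have h3 := hdv _ C2 B2 hC2 hD2
      have h4 : 8 * Real.log X ^ 2 * (C2 * Real.log X ^ B2) ≤ X / Real.log X ^ A' := by
        rw [le_div_iff₀ (by positivity)]
        calc 8 * Real.log X ^ 2 * (C2 * Real.log X ^ B2) * Real.log X ^ A' =
              8 * C2 * Real.log X ^ (2 + B2 + A') := by rw [pow_add, pow_add]; ring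
          _ ≤ X ^ (1 / 2 : ℝ) := hs1
          _ ≤ X := by nlinarith
      have h5 : 8 * Real.log X ^ 2 * ∑ d ∈ Icc 1 D, ((1 : ℕ) : ℝ) ^ om d / (d.totient : ℝ) ≤
          8 * Real.log X ^ 2 * (C2 * Real.log X ^ B2) :=
        mul_le_mul_of_nonneg_left h3 (by positivity)
      calc ∑ d ∈ Icc 1 D, EQ X d ≤ X / Real.log X ^ A' + X / Real.log X ^ A' := by linarith
        _ = _ := by ring
    -- Cauchy-Schwarz
    have hCS : (∑ d ∈ Icc 1 D, (K : ℝ) ^ om d * EQ X d) ^ 2 ≤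
        (∑ d ∈ Icc 1 D, ((K : ℝ) ^ om d) ^ 2 * EQ X d) * ∑ d ∈ Icc 1 D, EQ X d := by
      have h1 := sum_mul_sq_le_sq_mul_sq (Icc 1 D) (fun d => (K : ℝ) ^ om d * √(EQ X d)) (fun d => √(EQ X d))
      have e1 : ∑ d ∈ Icc 1 D, (K : ℝ) ^ om d * √(EQ X d) * √(EQ X d) = ∑ d ∈ Icc 1 D, (K : ℝ) ^ om d * EQ X d := by
        apply sum_congr rfl
        intro d hd
        rw [mul_assoc, Real.mul_self_sqrt (hEQ0 d hd)]
      have e2 : ∑ d ∈ Icc 1 D, ((K : ℝ) ^ om d * √(EQ X d)) ^ 2 = ∑ d ∈ Icc 1 D, ((K : ℝ) ^ om d) ^ 2 * EQ X d := by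
        apply sum_congr rfl
        intro d hd
        rw [mul_pow, Real.sq_sqrt (hEQ0 d hd)]
      have e3 : ∑ d ∈ Icc 1 D, (√(EQ X d)) ^ 2 = ∑ d ∈ Icc 1 D, EQ X d := by
        apply sum_congr rfl
        intro d hd
        rw [Real.sq_sqrt (hEQ0 d hd)]
      rw [e1, e2, e3] at h1
      exact h1
    have hS0 : 0 ≤ ∑ d ∈ Icc 1 D, EQ X d := sum_nonneg hEQ0
    have hmain : ∑ d ∈ Icc 1 D, (K : ℝ) ^ om d * EQ X d ≤ X / (2 * Real.log X ^ A) := by
      apply le_of_sq_le_sq _ (by positivity)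
      refine hCS.trans ((mul_le_mul hF1 hF2 hS0 (by positivity)).trans ?_)
      rw [div_pow, mul_div_assoc', div_le_div_iff₀ (by positivity) (by positivity)]
      have e1 : Real.log X ^ A' = (Real.log X ^ A) ^ 2 * (Real.log X ^ B1 * Real.log X ^ 2) := by
        rw [hA', ← pow_mul, ← pow_add, ← pow_add]
        congr 1
        ring
      rw [e1, pow_succ]
      have h6 : 8 * C0 * C1 * Real.log X ≤ Real.log X ^ 2 := by nlinarith
      have h7 : 0 ≤ X ^ 2 * (Real.log X ^ B1 * (Real.log X ^ A) ^ 2) := by positivity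
      have h8 := mul_le_mul_of_nonneg_left h6 h7
      calc C0 * C1 * X * (Real.log X ^ B1 * Real.log X) * (2 * X) * (2 * Real.log X ^ A) ^ 2 =
            X ^ 2 * (Real.log X ^ B1 * (Real.log X ^ A) ^ 2) * (8 * C0 * C1 * Real.log X) := by ring
        _ ≤ _ := h8
        _ = _ := by ring
    -- the logarithms
    have hthird : ∑ d ∈ Icc 1 D, (K : ℝ) ^ om d * Real.log X ^ 2 ≤ X / (2 * Real.log X ^ A) := by
      have h1 : ∑ d ∈ Icc 1 D, (K : ℝ) ^ om d * Real.log X ^ 2 ≤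
          (D * Real.log X ^ 2) * ∑ d ∈ Icc 1 D, (K : ℝ) ^ om d / (d.totient : ℝ) := by
        rw [mul_sum]
        apply sum_le_sum
        intro d hd
        rw [mem_Icc] at hd
        have hφ : (0 : ℝ) < d.totient := by exact_mod_cast Nat.totient_pos.mpr hd.1
        have hφD : (d.totient : ℝ) ≤ D := by exact_mod_cast (Nat.totient_le d).trans hd.2
        have h2 : 1 ≤ (D : ℝ) / d.totient := by rwa [one_le_div hφ]
        calc (K : ℝ) ^ om d * Real.log X ^ 2 ≤ (K : ℝ) ^ om d * Real.log X ^ 2 * ((D : ℝ) / d.totient) :=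
              le_mul_of_one_le_right (by positivity) h2
          _ = _ := by ring
      have h2 := hdv _ C3 B3 hC3 hD3
      have h3 : 0 ≤ (D : ℝ) * Real.log X ^ 2 := by positivity
      refine h1.trans ((mul_le_mul_of_nonneg_left h2 h3).trans ?_)
      rw [le_div_iff₀ (by positivity)]
      calc (D : ℝ) * Real.log X ^ 2 * (C3 * Real.log X ^ B3) * (2 * Real.log X ^ A) =
            D * (2 * C3 * Real.log X ^ (2 + B3 + A)) := by rw [pow_add, pow_add]; ring
        _ ≤ X ^ (1 / 2 : ℝ) * X ^ (1 / 2 : ℝ) := mul_le_mul hDh hs2 (by positivity) hh0.le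
        _ = X := hhalf
    have e4 : ∑ d ∈ Icc 1 D, (K : ℝ) ^ om d * (EQ X d + Real.log X ^ 2) =
        ∑ d ∈ Icc 1 D, (K : ℝ) ^ om d * EQ X d + ∑ d ∈ Icc 1 D, (K : ℝ) ^ om d * Real.log X ^ 2 := by
      rw [← sum_add_distrib]
      apply sum_congr rfl
      intro d _
      ring
    rw [e4]
    calc _ ≤ X / (2 * Real.log X ^ A) + X / (2 * Real.log X ^ A) := add_le_add hmain hthird
      _ = X / Real.log X ^ A := by
        field_simp
        ring
  obtain ⟨X₀, hX₀⟩ := eventually_atTop.mp hev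
  exact ⟨X₀, hX₀⟩

end Pool.Agent.H32.MTP
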