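import Pool.Agent.H31.MP.Basic
import Pool.Agent.H34.VT.DVS
import Pool.Agent.H92.VT.DVA

/-!
# Row DVK of the board mtp_modules: sums of `K ^ ω / φ`
-/

set_option autoImplicit false

namespace Pool.Agent.H32.MTP

open Pool.Agent.H31.MP Finset
open Pool.Agent.H47.VT (tk)
open Pool.Agent.H92.VT (tk_nonneg tk_sum)

theorem tk_one_right (k : ℕ) : tk k 1 = 1 := by
  induction k with
  | zero =>
    unfold tk
    rw [pow_zero, ArithmeticFunction.one_apply, if_pos rfl, Nat.cast_one]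
  | succ k ih => rw [← tk_sum, Nat.divisors_one, sum_singleton, ih]

theorem le_tk_prime_pow (k : ℕ) (p a : ℕ) (hp : p.Prime) (ha : a ≠ 0) : (k : ℝ) ≤ tk k (p ^ a) := by
  induction k with
  | zero => rw [Nat.cast_zero]; exact tk_nonneg _ _
  | succ k ih =>
    rw [← tk_sum]
    have hne : (1 : ℕ) ≠ p ^ a := (Nat.one_lt_pow ha hp.one_lt).ne
    have hsub : ({1, p ^ a} : Finset ℕ) ⊆ (p ^ a).divisors := by
      intro x hx
      rw [mem_insert, mem_singleton] at hx
      rw [Nat.mem_divisors]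
      rcases hx with rfl | rfl
      · exact ⟨one_dvd _, (pow_pos hp.pos a).ne'⟩
      · exact ⟨dvd_rfl, (pow_pos hp.pos a).ne'⟩
    have h1 := sum_le_sum_of_subset_of_nonneg hsub (f := fun d => tk k d) (fun d _ _ => tk_nonneg k d)
    rw [sum_pair hne, tk_one_right] at h1
    push_cast
    linarith

theorem pow_om_le_tk (k n : ℕ) (hn : n ≠ 0) : (k : ℝ) ^ om n ≤ tk k n := by
  have hm : ((ArithmeticFunction.zeta : ArithmeticFunction ℕ) ^ k).IsMultiplicative := by
    induction k with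
    | zero => rw [pow_zero]; exact ArithmeticFunction.isMultiplicative_one
    | succ k ih => rw [pow_succ]; exact ih.mul ArithmeticFunction.isMultiplicative_zeta
  have h1 : tk k n = ∏ p ∈ n.primeFactors, tk k (p ^ n.factorization p) := by
    unfold tk
    rw [hm.multiplicative_factorization _ hn, Finsupp.prod, Nat.support_factorization]
    push_cast
    rfl
  rw [h1]
  unfold om
  rw [← prod_const]
  apply prod_le_prod (fun i _ => Nat.cast_nonneg k)
  intro p hp
  have hpp := Nat.prime_of_mem_primeFactors hp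
  refine le_tk_prime_pow k p _ hpp ?_
  exact (hpp.factorization_pos_of_dvd hn (Nat.dvd_of_mem_primeFactors hp)).ne'

theorem le_totient (n : ℕ) : (n : ℝ) ≤ 2 ^ om n * (n.totient : ℝ) := by
  have h1 := Nat.totient_eq_mul_prod_factors n
  have h2 : (n.totient : ℝ) = n * ∏ p ∈ n.primeFactors, (1 - (p : ℝ)⁻¹) := by
    have := congrArg (fun x : ℚ => (x : ℝ)) h1
    push_cast at this
    exact this
  rw [h2]
  have h3 : (1 / 2 : ℝ) ^ om n ≤ ∏ p ∈ n.primeFactors, (1 - (p : ℝ)⁻¹) := by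
    unfold om
    rw [← prod_const]
    apply prod_le_prod (fun i _ => by norm_num)
    intro p hp
    have hpp := Nat.prime_of_mem_primeFactors hp
    have h4 : (2 : ℝ) ≤ p := by exact_mod_cast hpp.two_le
    have h5 : (p : ℝ)⁻¹ ≤ 2⁻¹ := inv_anti₀ (by norm_num) h4
    linarith
  have h6 : (2 : ℝ) ^ om n * (1 / 2) ^ om n = 1 := by
    rw [← mul_pow]
    norm_num
  calc (n : ℝ) = 2 ^ om n * (n * (1 / 2) ^ om n) := by linear_combination (-(n : ℝ)) * h6
    _ ≤ _ := by
      apply mul_le_mul_of_nonneg_left _ (by positivity)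
      exact mul_le_mul_of_nonneg_left h3 (Nat.cast_nonneg n)

theorem term_le (K n : ℕ) (hn : n ≠ 0) :
    (K : ℝ) ^ om n / (n.totient : ℝ) ≤ tk (2 * (K + 1)) n / n := by
  have hn0 : (0 : ℝ) < n := by exact_mod_cast Nat.pos_of_ne_zero hn
  have hφ : (0 : ℝ) < n.totient := by exact_mod_cast Nat.totient_pos.mpr (Nat.pos_of_ne_zero hn)
  rw [div_le_div_iff₀ hφ hn0]
  have h1 := pow_om_le_tk (2 * (K + 1)) n hn
  have h2 := le_totient n
  have h3 : (K : ℝ) ^ om n ≤ ((K : ℝ) + 1) ^ om n := pow_le_pow_left₀ (Nat.cast_nonneg K) (by linarith) _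
  have h4 : ((2 * (K + 1) : ℕ) : ℝ) ^ om n = 2 ^ om n * ((K : ℝ) + 1) ^ om n := by
    push_cast
    rw [mul_pow]
  rw [h4] at h1
  calc (K : ℝ) ^ om n * n ≤ ((K : ℝ) + 1) ^ om n * (2 ^ om n * n.totient) :=
        mul_le_mul h3 h2 hn0.le (by positivity)
    _ = 2 ^ om n * ((K : ℝ) + 1) ^ om n * n.totient := by ring
    _ ≤ _ := mul_le_mul_of_nonneg_right h1 hφ.le

theorem pf_DVK : T_DVK := by
  intro K
  refine ⟨3 ^ (2 * (K + 1)), 2 * (K + 1), by positivity, ?_⟩
  intro N hN
  have h1 := (Pool.Agent.H34.VT.pf_DVS (2 * (K + 1)) N (by omega)).1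
  have h2 : ∑ d ∈ Icc 1 N, (K : ℝ) ^ om d / (d.totient : ℝ) ≤ ∑ n ∈ Icc 1 N, tk (2 * (K + 1)) n / n := by
    apply sum_le_sum
    intro d hd
    rw [mem_Icc] at hd
    exact term_le K d (by omega)
  refine h2.trans (h1.trans ?_)
  rw [← mul_pow]
  have hl2 : 0.69 < Real.log 2 := by
    have := Real.log_two_gt_d9
    linarith
  have hlN : Real.log 2 ≤ Real.log N := Real.log_le_log (by norm_num) (by exact_mod_cast hN)
  exact pow_le_pow_left₀ (by linarith) (by linarith) _

end Pool.Agent.H32.MTP
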