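import Pool.Agent.H31.MP.Basic
import Pool.Agent.H58.BV.PM

/-!
# Row TR of the board mtp_modules: two bounds for one modulus
-/

set_option autoImplicit false

namespace Pool.Agent.H32.MTP

open Pool.Agent.H31.MP Finset ArithmeticFunction
open Pool.Agent.H30.BV (NX wx WX SC)
open Pool.Agent.H27.LS (hat hat_nonneg hat_le_one)

theorem wx_nonneg (X : ℝ) (n : ℕ) : 0 ≤ wx X n := mul_nonneg vonMangoldt_nonneg (hat_nonneg _)

theorem wx_le_log {X : ℝ} (hX : 3 ≤ X) {n : ℕ} (hn : n ∈ Icc 1 (NX X)) : wx X n ≤ 3 * Real.log X := by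
  rw [mem_Icc] at hn
  have h1 : wx X n ≤ Λ n := Pool.Agent.H58.BV.wx_le X n
  have h2 : Λ n ≤ Real.log n := vonMangoldt_le_log
  have h3 : ((NX X : ℕ) : ℝ) ≤ 3 * X + 1 := (Nat.ceil_lt_add_one (by linarith)).le
  have h4 : (n : ℝ) ≤ X ^ 3 := by
    have h5 : (n : ℝ) ≤ NX X := by exact_mod_cast hn.2
    nlinarith [sq_nonneg (X - 3), mul_nonneg (sub_nonneg.mpr hX) (sq_nonneg X)]
  have h6 : Real.log n ≤ Real.log (X ^ 3) := Real.log_le_log (by exact_mod_cast hn.1) h4
  rw [Real.log_pow] at h6
  push_cast at h6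
  linarith

theorem count_le (N d : ℕ) (hd : 1 ≤ d) (a : ZMod d) :
    (((Icc 1 N).filter (fun n : ℕ => (n : ZMod d) = a)).card : ℝ) ≤ (N : ℝ) / d + 1 := by
  have : NeZero d := ⟨by omega⟩
  have h1 : ((Icc 1 N).filter (fun n : ℕ => (n : ZMod d) = a)).card ≤ N / d + 1 := by
    have h2 : ((Icc 1 N).filter (fun n : ℕ => (n : ZMod d) = a)).card ≤ (range (N / d + 1)).card := by
      apply card_le_card_of_injOn (fun n => n / d)
      · intro n hn
        rw [coe_filter] at hn
        have hn1 : n ∈ Icc 1 N := hn.1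
        rw [mem_Icc] at hn1
        rw [coe_range, Set.mem_Iio]
        have := Nat.div_le_div_right (c := d) hn1.2
        exact Nat.lt_succ_of_le this
      · intro n hn m hm hnm
        rw [coe_filter] at hn hm
        have e1 : ((n : ℕ) : ZMod d) = ((m : ℕ) : ZMod d) := hn.2.trans hm.2.symm
        rw [ZMod.natCast_eq_natCast_iff'] at e1
        have e2 : n / d = m / d := hnm
        rw [← Nat.div_add_mod n d, ← Nat.div_add_mod m d, e1, e2]
    rw [card_range] at h2
    exact h2
  calc (((Icc 1 N).filter (fun n : ℕ => (n : ZMod d) = a)).card : ℝ) ≤ ((N / d + 1 : ℕ) : ℝ) := by exact_mod_cast h1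
    _ = ((N / d : ℕ) : ℝ) + 1 := by push_cast; ring
    _ ≤ _ := by
      have := Nat.cast_div_le (α := ℝ) (m := N) (n := d)
      linarith

theorem pf_TR (hCL : Pool.Agent.H30.BV.T_CL) : T_TR := by
  refine ⟨?_, 27, by norm_num, ?_⟩
  · intro X d hX hd hdX
    have : NeZero d := ⟨by omega⟩
    refine ⟨Real.iSup_nonneg fun a => abs_nonneg _, ?_⟩
    unfold EQ
    apply ciSup_le
    intro a
    exact hCL X d a hX hd hdX a.isUnit
  · intro X d hX hd hdX
    have : NeZero d := ⟨by omega⟩
    have hd0 : (0 : ℝ) < d := by exact_mod_cast hd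
    have hφ : (0 : ℝ) < d.totient := by exact_mod_cast Nat.totient_pos.mpr hd
    have hφd : (d.totient : ℝ) ≤ d := by exact_mod_cast Nat.totient_le d
    have hlog : 0 < Real.log X := Real.log_pos (by linarith)
    have hN : ((NX X : ℕ) : ℝ) ≤ 3 * X + 1 := (Nat.ceil_lt_add_one (by linarith)).le
    have hW : WX X ≤ 4 * X * (3 * Real.log X) := by
      unfold WX
      refine (sum_le_card_nsmul _ _ _ fun n hn => wx_le_log hX hn).trans ?_
      rw [Nat.card_Icc, nsmul_eq_mul, Nat.add_sub_cancel]
      apply mul_le_mul_of_nonneg_right _ (by linarith)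
      linarith
    have hW0 : 0 ≤ WX X := sum_nonneg fun n _ => wx_nonneg X n
    unfold EQ
    apply ciSup_le
    intro a
    have h1 : ∑ n ∈ (Icc 1 (NX X)).filter (fun n : ℕ => (n : ZMod d) = a), wx X n ≤
        (5 * X / d) * (3 * Real.log X) := by
      refine (sum_le_card_nsmul _ _ _ fun n hn => wx_le_log hX (mem_filter.mp hn).1).trans ?_
      rw [nsmul_eq_mul]
      apply mul_le_mul_of_nonneg_right _ (by linarith)
      refine (count_le _ d hd _).trans ?_
      rw [div_add_one hd0.ne']
      apply div_le_div_of_nonneg_right _ hd0.le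
      linarith
    have h10 : 0 ≤ ∑ n ∈ (Icc 1 (NX X)).filter (fun n : ℕ => (n : ZMod d) = a), wx X n :=
      sum_nonneg fun n _ => wx_nonneg X n
    have h2 : (5 * X / d) * (3 * Real.log X) ≤ 15 * X * Real.log X / d.totient := by
      rw [div_mul_eq_mul_div]
      apply div_le_div₀ _ _ hφ hφd
      · positivity
      · linarith
    have h3 : WX X / d.totient ≤ 12 * X * Real.log X / d.totient := by
      apply div_le_div_of_nonneg_right _ hφ.le
      linarith
    have h4 : 0 ≤ WX X / d.totient := div_nonneg hW0 hφ.le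
    have h5 : 27 * X * Real.log X / d.totient = 15 * X * Real.log X / d.totient +
        12 * X * Real.log X / d.totient := by
      rw [← add_div]
      congr 1
      ring
    rw [h5, abs_le]
    constructor
    · have : 0 ≤ 15 * X * Real.log X / d.totient := by positivity
      linarith
    · linarith

end Pool.Agent.H32.MTP
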